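import Pool.Agent.X83.DM.Stm

/-! Part DEC of MP_8bcfe8_an: uniform exponential decay. -/

namespace Pool.Agent.X191.DM

open Pool.Agent.X83.DM Set Real

theorem t_DEC : S_DEC := by
  intro a c1 c2 ha hc1 hc12
  have hc2 : 0 < c2 := hc1.trans_le hc12
  have hD : 0 < 1 + c2 ^ 2 / (2 * a) := by positivity
  obtain ⟨e, he0, he1, hea, hec⟩ : ∃ e : ℝ, 0 < e ∧ e ≤ 1 ∧ e ≤ a ∧
      e * (1 + c2 ^ 2 / (2 * a)) ≤ c1 := by
    refine ⟨min (c1 / (1 + c2 ^ 2 / (2 * a))) (min 1 a), by positivity,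
      (min_le_right _ _).trans (min_le_left _ _), (min_le_right _ _).trans (min_le_right _ _), ?_⟩
    calc min (c1 / (1 + c2 ^ 2 / (2 * a))) (min 1 a) * (1 + c2 ^ 2 / (2 * a))
        ≤ c1 / (1 + c2 ^ 2 / (2 * a)) * (1 + c2 ^ 2 / (2 * a)) :=
          mul_le_mul_of_nonneg_right (min_le_left _ _) hD.le
      _ = c1 := div_mul_cancel₀ _ hD.ne'
  refine ⟨2 + 2 / a, e / 6, by positivity, by positivity, ?_⟩
  intro c hc y g hk t ht
  have hcpos : 0 < c := hc1.trans_le hc.1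
  -- the Lyapunov function
  let E : ℝ → ℝ := fun t => g t ^ 2 + a * y t ^ 2 + e * (y t * g t)
  have hE : ∀ t, HasDerivAt E (2 * g t * (-(c * g t) - a * y t) + a * (2 * y t * g t) +
      e * (g t * g t + y t * (-(c * g t) - a * y t))) t := by
    intro t
    have h1 := (hk.dg t).fun_pow 2
    have h2 := ((hk.dy t).fun_pow 2).const_mul a
    have h3 := ((hk.dy t).fun_mul (hk.dg t)).const_mul e
    have h4 := (h1.fun_add h2).fun_add h3
    refine h4.congr_deriv ?_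
    push_cast
    ring
  have hbase : ∀ Y G : ℝ, |e * (Y * G)| ≤ 1 / 2 * (G ^ 2 + a * Y ^ 2) := by
    intro Y G
    have hee : e ^ 2 ≤ a := by nlinarith
    rw [abs_le]
    constructor
    · nlinarith [sq_nonneg (e * Y + G), mul_le_mul_of_nonneg_right hee (sq_nonneg Y)]
    · nlinarith [sq_nonneg (e * Y - G), mul_le_mul_of_nonneg_right hee (sq_nonneg Y)]
  have hdiff : ∀ Y G : ℝ, 2 * G * (-(c * G) - a * Y) + a * (2 * Y * G) +
      e * (G * G + Y * (-(c * G) - a * Y)) + e / 3 * (G ^ 2 + a * Y ^ 2 + e * (Y * G)) ≤ 0 := by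
    intro Y G
    have h1 := (abs_le.mp (hbase Y G)).2
    -- `-e c Y G ≤ e a / 2 Y^2 + e c^2 / (2 a) G^2`
    have h2 : -(e * c * (Y * G)) ≤ e * (a / 2 * Y ^ 2) + e * (c ^ 2 / (2 * a)) * G ^ 2 := by
      have : 0 ≤ e * (a / 2 * (Y + c / a * G) ^ 2) := by positivity
      have h3 : e * (a / 2 * (Y + c / a * G) ^ 2) =
          e * (a / 2 * Y ^ 2) + e * c * (Y * G) + e * (c ^ 2 / (2 * a)) * G ^ 2 := by
        field_simp
        ring
      linarith
    have h4 : c ^ 2 / (2 * a) ≤ c2 ^ 2 / (2 * a) := by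
      apply div_le_div_of_nonneg_right _ (by positivity)
      exact pow_le_pow_left₀ hcpos.le hc.2 2
    have h5 : e * (1 + c ^ 2 / (2 * a)) ≤ c1 :=
      (mul_le_mul_of_nonneg_left (by linarith) he0.le).trans hec
    have h6 : e * (1 + c ^ 2 / (2 * a)) * G ^ 2 ≤ c1 * G ^ 2 :=
      mul_le_mul_of_nonneg_right h5 (sq_nonneg G)
    have h7 : c1 * G ^ 2 ≤ c * G ^ 2 := mul_le_mul_of_nonneg_right hc.1 (sq_nonneg G)
    have hec1 : e ≤ c1 := by
      refine le_trans ?_ hec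
      have : 0 ≤ c2 ^ 2 / (2 * a) := by positivity
      nlinarith
    have h8 : e * G ^ 2 ≤ c1 * G ^ 2 := mul_le_mul_of_nonneg_right hec1 (sq_nonneg G)
    have h9 : e / 3 * (e * (Y * G)) ≤ e / 3 * (1 / 2 * (G ^ 2 + a * Y ^ 2)) :=
      mul_le_mul_of_nonneg_left h1 (by positivity)
    have h10 : 0 ≤ e * G ^ 2 := by positivity
    nlinarith
  let H : ℝ → ℝ := fun t => exp (e / 3 * t) * E t
  have hH : ∀ t, HasDerivAt H (exp (e / 3 * t) * (e / 3 * 1) * E t + exp (e / 3 * t) *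
      (2 * g t * (-(c * g t) - a * y t) + a * (2 * y t * g t) +
      e * (g t * g t + y t * (-(c * g t) - a * y t)))) t := by
    intro t
    exact (((hasDerivAt_id t).const_mul (e / 3)).exp).fun_mul (hE t)
  have hanti : Antitone H := by
    refine antitone_of_deriv_nonpos (fun t => (hH t).differentiableAt) fun t => ?_
    rw [(hH t).deriv]
    have h1 := hdiff (y t) (g t)
    have h2 : exp (e / 3 * t) * (e / 3 * 1) * E t + exp (e / 3 * t) *
      (2 * g t * (-(c * g t) - a * y t) + a * (2 * y t * g t) +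
      e * (g t * g t + y t * (-(c * g t) - a * y t))) = exp (e / 3 * t) *
      (2 * g t * (-(c * g t) - a * y t) + a * (2 * y t * g t) +
      e * (g t * g t + y t * (-(c * g t) - a * y t)) +
      e / 3 * (g t ^ 2 + a * y t ^ 2 + e * (y t * g t))) := by
      simp only [E]
      ring
    rw [h2]
    exact mul_nonpos_of_nonneg_of_nonpos (exp_pos _).le h1
  have h0 : H 0 = 1 := by simp [H, E, hk.y0, hk.g0]
  have h1 : H t ≤ 1 := h0 ▸ hanti ht
  have h2 : E t ≤ exp (-(e / 6 * t)) ^ 2 := by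
    have h3 : exp (-(e / 6 * t)) ^ 2 * exp (e / 3 * t) = 1 := by
      rw [← exp_nat_mul, ← exp_add]
      have : ((2 : ℕ) : ℝ) * -(e / 6 * t) + e / 3 * t = 0 := by push_cast; ring
      rw [this, exp_zero]
    have h4 : exp (e / 3 * t) * E t ≤ 1 := h1
    have h5 : 0 < exp (-(e / 6 * t)) ^ 2 := by positivity
    calc E t = exp (-(e / 6 * t)) ^ 2 * (exp (e / 3 * t) * E t) := by
          rw [← mul_assoc, h3, one_mul]
      _ ≤ exp (-(e / 6 * t)) ^ 2 * 1 := mul_le_mul_of_nonneg_left h4 h5.le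
      _ = _ := mul_one _
  have h3 : 1 / 2 * (g t ^ 2 + a * y t ^ 2) ≤ E t := by
    have := (abs_le.mp (hbase (y t) (g t))).1
    simp only [E]
    linarith
  have hpos : 0 < exp (-(e / 6 * t)) := exp_pos _
  set X := exp (-(e / 6 * t)) with hX
  have hM : 0 ≤ 2 / a := by positivity
  constructor
  · refine abs_le_of_sq_le_sq' ?_ (by positivity) |> abs_le.mpr
    have h4 : a * y t ^ 2 ≤ 2 * X ^ 2 := by nlinarith [sq_nonneg (g t)]
    have h5 : y t ^ 2 ≤ 2 / a * X ^ 2 := by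
      rw [div_mul_eq_mul_div, le_div_iff₀ ha]
      linarith
    have h6 : 2 / a ≤ (2 + 2 / a) ^ 2 := by nlinarith
    calc y t ^ 2 ≤ 2 / a * X ^ 2 := h5
      _ ≤ (2 + 2 / a) ^ 2 * X ^ 2 := mul_le_mul_of_nonneg_right h6 (sq_nonneg X)
      _ = _ := by ring
  · refine abs_le_of_sq_le_sq' ?_ (by positivity) |> abs_le.mpr
    have h4 : g t ^ 2 ≤ 2 * X ^ 2 := by nlinarith [mul_nonneg ha.le (sq_nonneg (y t))]
    have h6 : 2 ≤ (2 + 2 / a) ^ 2 := by nlinarith
    calc g t ^ 2 ≤ 2 * X ^ 2 := h4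
      _ ≤ (2 + 2 / a) ^ 2 * X ^ 2 := mul_le_mul_of_nonneg_right h6 (sq_nonneg X)
      _ = _ := by ring

end Pool.Agent.X191.DM
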